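import Mathlib
import Pool.Agent.Work.MP_def58e_co.Kernel

/-!
Positive definite kernels on the unit sphere of three-space which are invariant under the
stabilizer of a pole (Bachoc-Vallentin), in the form needed for configurations with a hole.
-/

namespace MPdef58eHole

open Finset MPdef58e

noncomputable section

/-- `Q k u v t` is the real part of the `k`-th power of `z * conj w` if `|z|^2 = 1 - u^2`,
`|w|^2 = 1 - v^2` and `Re (z * conj w) = t - u v`. -/
def Q : ℕ → ℝ → ℝ → ℝ → ℝ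
  | 0, _, _, _ => 1
  | 1, u, v, t => t - u * v
  | k + 2, u, v, t => 2 * (t - u * v) * Q (k + 1) u v t - (1 - u ^ 2) * (1 - v ^ 2) * Q k u v t

theorem Q_eq (k : ℕ) (u v t : ℝ) (c : ℂ) (h1 : c.re = t - u * v)
    (h2 : Complex.normSq c = (1 - u ^ 2) * (1 - v ^ 2)) :
    Q k u v t = (c ^ k).re ∧ Q (k + 1) u v t = (c ^ (k + 1)).re := by
  induction k with
  | zero => simp [Q, h1]
  | succ k ih =>
    refine ⟨ih.2, ?_⟩
    have e : c ^ (k + 1 + 1) = (2 * c.re : ℝ) * c ^ (k + 1) - (Complex.normSq c : ℝ) * c ^ k := by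
      have e1 : c ^ 2 = (2 * c.re : ℝ) * c - (Complex.normSq c : ℝ) := by
        apply Complex.ext
        · simp [sq, Complex.normSq_apply]
          ring
        · simp [sq]
          ring
      calc c ^ (k + 1 + 1) = c ^ 2 * c ^ k := by ring
        _ = _ := by rw [e1]; ring
    rw [e, Complex.sub_re, Complex.re_ofReal_mul, Complex.re_ofReal_mul, ← ih.1, ← ih.2, h1, h2]
    simp [Q]

theorem form_nonneg {ι : Type*} [Fintype ι] (k : ℕ) (p : ℝ → ℝ) (x : ι → ℝ) (z : ι → ℂ)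
    (t : ι → ι → ℝ) (hz : ∀ i, Complex.normSq (z i) = 1 - x i ^ 2)
    (ht : ∀ i j, t i j = x i * x j + (z i * (starRingEnd ℂ) (z j)).re) :
    0 ≤ ∑ i, ∑ j, Q k (x i) (x j) (t i j) * (p (x i) * p (x j)) := by
  have e : ∀ i j, Q k (x i) (x j) (t i j) * (p (x i) * p (x j))
      = (((p (x i) : ℂ) * z i ^ k) * (starRingEnd ℂ) ((p (x j) : ℂ) * z j ^ k)).re := by
    intro i j
    have h := (Q_eq k (x i) (x j) (t i j) (z i * (starRingEnd ℂ) (z j))
      (by rw [ht i j]; ring) (by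
        rw [Complex.normSq_mul, Complex.normSq_conj, hz, hz])).1
    rw [h]
    have e2 : ((p (x i) : ℂ) * z i ^ k) * (starRingEnd ℂ) ((p (x j) : ℂ) * z j ^ k)
        = ((p (x i) * p (x j) : ℝ) : ℂ) * (z i * (starRingEnd ℂ) (z j)) ^ k := by
      rw [map_mul, map_pow, Complex.conj_ofReal]
      push_cast
      ring
    rw [e2, Complex.re_ofReal_mul]
    ring
  simp only [e]
  rw [← sum_congr rfl fun i _ => Complex.re_sum _ _, ← Complex.re_sum]
  have e3 : ∑ i, ∑ j, ((p (x i) : ℂ) * z i ^ k) * (starRingEnd ℂ) ((p (x j) : ℂ) * z j ^ k)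
      = (∑ i, (p (x i) : ℂ) * z i ^ k) * (starRingEnd ℂ) (∑ i, (p (x i) : ℂ) * z i ^ k) := by
    rw [map_sum, sum_mul_sum]
  rw [e3, Complex.mul_conj, Complex.ofReal_re]
  exact Complex.normSq_nonneg _

theorem ip_self' {x : Fin 3 → ℝ} (hx : IsUnit3 x) : ip x x = 1 := by
  unfold ip
  unfold IsUnit3 at hx
  linarith

theorem neg_one_le_ip {x y : Fin 3 → ℝ} (hx : IsUnit3 x) (hy : IsUnit3 y) : -1 ≤ ip x y := by
  unfold ip
  unfold IsUnit3 at hx hy
  nlinarith [sq_nonneg (x 0 + y 0), sq_nonneg (x 1 + y 1), sq_nonneg (x 2 + y 2)]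

/-- coordinates in the plane orthogonal to the pole -/
theorem exists_frame (u : Fin 3 → ℝ) (hu : IsUnit3 u) :
    ∃ z : (Fin 3 → ℝ) → ℂ, ∀ x y,
      ip x y = ip x u * ip y u + (z x * (starRingEnd ℂ) (z y)).re := by
  unfold IsUnit3 at hu
  by_cases h2 : u 2 = 1
  · have h0 : u 0 = 0 := by
      have : u 0 ^ 2 = 0 := by nlinarith [sq_nonneg (u 0), sq_nonneg (u 1)]
      exact pow_eq_zero_iff (two_ne_zero) |>.1 this
    have h1 : u 1 = 0 := by
      have : u 1 ^ 2 = 0 := by nlinarith [sq_nonneg (u 0), sq_nonneg (u 1)]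
      exact pow_eq_zero_iff (two_ne_zero) |>.1 this
    refine ⟨fun x => ⟨x 0, x 1⟩, fun x y => ?_⟩
    simp [ip, h0, h1, h2]
    ring
  · have hd : 1 - u 2 ≠ 0 := fun h => h2 (by linarith)
    refine ⟨fun x => ⟨x 0 - (ip x u - x 2) / (1 - u 2) * u 0,
      x 1 - (ip x u - x 2) / (1 - u 2) * u 1⟩, fun x y => ?_⟩
    have hu0 : u 0 ^ 2 = 1 - u 1 ^ 2 - u 2 ^ 2 := by linarith
    simp only [Complex.mul_re, Complex.conj_re, Complex.conj_im, ip]
    field_simp
    ring_nf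
    rw [show u 0 ^ 4 = (u 0 ^ 2) ^ 2 by ring, show u 0 ^ 3 = u 0 * u 0 ^ 2 by ring, hu0]
    ring

/-- the counting argument -/
theorem no_config (x : Fin 11 → ℝ) (t : Fin 11 → Fin 11 → ℝ) (K : ℝ → ℝ → ℝ → ℝ) (g : ℝ → ℝ)
    (ε : ℝ) (hε : 0 < ε) (h1 : ∀ i, K (x i) (x i) (t i i) ≤ - g (x i) - ε)
    (h2 : ∀ i j, i ≠ j → K (x i) (x j) (t i j) ≤ (g (x i) + g (x j)) / 20)
    (h : 0 ≤ ∑ i, ∑ j, K (x i) (x j) (t i j)) : False := by
  have hb : ∀ i j, K (x i) (x j) (t i j) ≤ (g (x i) + g (x j)) / 20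
      + (if i = j then (- g (x i) - ε - g (x i) / 10) else 0) := by
    intro i j
    by_cases hij : i = j
    · subst hij
      rw [if_pos rfl]
      have := h1 i
      linarith
    · rw [if_neg hij, add_zero]
      exact h2 i j hij
  have hs : ∑ i, ∑ j, K (x i) (x j) (t i j) ≤ ∑ i, ∑ j, ((g (x i) + g (x j)) / 20
      + (if i = j then (- g (x i) - ε - g (x i) / 10) else 0)) :=
    sum_le_sum fun i _ => sum_le_sum fun j _ => hb i j
  have e : ∑ i : Fin 11, ∑ j : Fin 11, ((g (x i) + g (x j)) / 20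
      + (if i = j then (- g (x i) - ε - g (x i) / 10) else 0)) = - 11 * ε := by
    simp only [sum_add_distrib, sum_ite_eq, mem_univ, if_true, ← sum_div, sum_const, card_univ,
      Fintype.card_fin, nsmul_eq_mul, sum_sub_distrib, sum_neg_distrib, ← mul_sum]
    push_cast
    ring
  linarith

end

end MPdef58eHole
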