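import Mathlib
import Pool.Agent.Work.MP_def58e_hole.Kern
import Pool.Agent.Work.MP_def58e_hole.Ineq

/-! The kernel of the certificate and the bound on holes of eleven point configurations.
Generated by a program. -/

namespace MPdef58eHole

open MPdef58e

noncomputable section

/-- polynomial of the certificate -/
def f0 (u : ℝ) : ℝ := (311863293/5000000000) + (447646333/10000000000)*u + (-2388247387/10000000000)*u^2 + (1778084383/10000000000)*u^3 + (1613475217/10000000000)*u^4 + (-206367197/2500000000)*u^5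

/-- polynomial of the certificate -/
def f1 (u : ℝ) : ℝ := (1564070679/10000000000)*u + (-930760041/10000000000)*u^2 + (-563224227/2500000000)*u^3 + (3424877/25000000)*u^4 + (-12850119/400000000)*u^5

/-- polynomial of the certificate -/
def f2 (u : ℝ) : ℝ := (401416847/5000000000)*u^2 + (1564698529/10000000000)*u^3 + (-440615311/5000000000)*u^4 + (-1265546463/10000000000)*u^5

/-- polynomial of the certificate -/
def f3 (u : ℝ) : ℝ := (31831941/1000000000)*u^3 + (280775017/10000000000)*u^4 + (-12259853/1250000000)*u^5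

/-- polynomial of the certificate -/
def f4 (u : ℝ) : ℝ := (269000041/10000000000)*u^4 + (157761453/5000000000)*u^5

/-- polynomial of the certificate -/
def f5 (u : ℝ) : ℝ := (21671389/5000000000)*u^5

/-- polynomial of the certificate -/
def f6 (u : ℝ) : ℝ := (57089277/400000000) + (462702603/10000000000)*u + (-2572512247/10000000000)*u^2 + (-593096629/10000000000)*u^3 + (1000535969/10000000000)*u^4

/-- polynomial of the certificate -/
def f7 (u : ℝ) : ℝ := (145464123/625000000)*u + (-1112101323/10000000000)*u^2 + (-474246851/2500000000)*u^3 + (1352808893/10000000000)*u^4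

/-- polynomial of the certificate -/
def f8 (u : ℝ) : ℝ := (949958923/5000000000)*u^2 + (-3134225977/10000000000)*u^3 + (-425376989/5000000000)*u^4

/-- polynomial of the certificate -/
def f9 (u : ℝ) : ℝ := (2923540971/10000000000)*u^3 + (-326548741/5000000000)*u^4

/-- polynomial of the certificate -/
def f10 (u : ℝ) : ℝ := (1720146323/10000000000)*u^4

/-- polynomial of the certificate -/
def f11 (u : ℝ) : ℝ := (623814319/5000000000) + (12794503/200000000)*u + (-329146489/2500000000)*u^2 + (-87689657/1000000000)*u^3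

/-- polynomial of the certificate -/
def f12 (u : ℝ) : ℝ := (1522920003/10000000000)*u + (-63140467/400000000)*u^2 + (1021301743/10000000000)*u^3

/-- polynomial of the certificate -/
def f13 (u : ℝ) : ℝ := (387615691/2500000000)*u^2 + (-428731197/2500000000)*u^3

/-- polynomial of the certificate -/
def f14 (u : ℝ) : ℝ := (69826787/2000000000)*u^3

/-- polynomial of the certificate -/
def f15 (u : ℝ) : ℝ := (528173653/5000000000) + (144070711/5000000000)*u + (-39798281/625000000)*u^2

/-- polynomial of the certificate -/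
def f16 (u : ℝ) : ℝ := (1233287937/10000000000)*u + (-1388194033/10000000000)*u^2

/-- polynomial of the certificate -/
def f17 (u : ℝ) : ℝ := (1039811621/10000000000)*u^2

/-- polynomial of the certificate -/
def f18 (u : ℝ) : ℝ := (88055627/1250000000) + (269334399/10000000000)*u

/-- polynomial of the certificate -/
def f19 (u : ℝ) : ℝ := (31910579/5000000000)*u

/-- polynomial of the certificate -/
def f20 (u : ℝ) : ℝ := (51367169/1250000000)

/-- correction function of the certificate -/
def gg (u : ℝ) : ℝ := (-149353563/2500000000) + (-280448103/5000000000)*u + (138987731/1000000000)*u^2 + (2315460577/5000000000)*u^3 + (-53035887/5000000000)*u^4 + (-2849065061868842602979397/9765625000000000000000000)*u^5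

/-- the kernel -/
def KK (u v t : ℝ) : ℝ :=
  Q 0 u v t * (f0 u * f0 v)
  + Q 0 u v t * (f1 u * f1 v)
  + Q 0 u v t * (f2 u * f2 v)
  + Q 0 u v t * (f3 u * f3 v)
  + Q 0 u v t * (f4 u * f4 v)
  + Q 0 u v t * (f5 u * f5 v)
  + Q 1 u v t * (f6 u * f6 v)
  + Q 1 u v t * (f7 u * f7 v)
  + Q 1 u v t * (f8 u * f8 v)
  + Q 1 u v t * (f9 u * f9 v)
  + Q 1 u v t * (f10 u * f10 v)
  + Q 2 u v t * (f11 u * f11 v)
  + Q 2 u v t * (f12 u * f12 v)
  + Q 2 u v t * (f13 u * f13 v)
  + Q 2 u v t * (f14 u * f14 v)
  + Q 3 u v t * (f15 u * f15 v)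
  + Q 3 u v t * (f16 u * f16 v)
  + Q 3 u v t * (f17 u * f17 v)
  + Q 4 u v t * (f18 u * f18 v)
  + Q 4 u v t * (f19 u * f19 v)
  + Q 5 u v t * (f20 u * f20 v)

theorem KK_pair (u v t : ℝ) : (gg u + gg v)/20 - KK u v t = GG (u + v) (u * v) t := by
  unfold KK GG gg
  simp only [Q, f0, f1, f2, f3, f4, f5, f6, f7, f8, f9, f10, f11, f12, f13, f14, f15, f16, f17, f18, f19, f20]
  ring

theorem KK_diag (u : ℝ) : - KK u u 1 - gg u = HU u := by
  unfold KK HU gg
  simp only [Q, f0, f1, f2, f3, f4, f5, f6, f7, f8, f9, f10, f11, f12, f13, f14, f15, f16, f17, f18, f19, f20]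
  ring

theorem KK_form {ι : Type*} [Fintype ι] (x : ι → ℝ) (z : ι → ℂ) (t : ι → ι → ℝ)
    (hz : ∀ i, Complex.normSq (z i) = 1 - x i ^ 2)
    (ht : ∀ i j, t i j = x i * x j + (z i * (starRingEnd ℂ) (z j)).re) :
    0 ≤ ∑ i, ∑ j, KK (x i) (x j) (t i j) := by
  unfold KK
  simp only [Finset.sum_add_distrib]
  have h0 := form_nonneg 0 f0 x z t hz ht
  have h1 := form_nonneg 0 f1 x z t hz ht
  have h2 := form_nonneg 0 f2 x z t hz ht
  have h3 := form_nonneg 0 f3 x z t hz ht
  have h4 := form_nonneg 0 f4 x z t hz ht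
  have h5 := form_nonneg 0 f5 x z t hz ht
  have h6 := form_nonneg 1 f6 x z t hz ht
  have h7 := form_nonneg 1 f7 x z t hz ht
  have h8 := form_nonneg 1 f8 x z t hz ht
  have h9 := form_nonneg 1 f9 x z t hz ht
  have h10 := form_nonneg 1 f10 x z t hz ht
  have h11 := form_nonneg 2 f11 x z t hz ht
  have h12 := form_nonneg 2 f12 x z t hz ht
  have h13 := form_nonneg 2 f13 x z t hz ht
  have h14 := form_nonneg 2 f14 x z t hz ht
  have h15 := form_nonneg 3 f15 x z t hz ht
  have h16 := form_nonneg 3 f16 x z t hz ht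
  have h17 := form_nonneg 3 f17 x z t hz ht
  have h18 := form_nonneg 4 f18 x z t hz ht
  have h19 := form_nonneg 4 f19 x z t hz ht
  have h20 := form_nonneg 5 f20 x z t hz ht
  linarith

theorem no_hole (x : Fin 11 → Fin 3 → ℝ) (u : Fin 3 → ℝ) (hx : ∀ i, IsUnit3 (x i))
    (hu : IsUnit3 u) (hsep : ∀ i j, i ≠ j → ip (x i) (x j) ≤ 1 / 2) :
    ∃ i, 7/25 ≤ ip (x i) u := by
  by_contra hcon
  push Not at hcon
  obtain ⟨z, hz⟩ := exists_frame u hu
  have hform := KK_form (fun i => ip (x i) u) (fun i => z (x i)) (fun i j => ip (x i) (x j))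
    (fun i => by
      have h := hz (x i) (x i)
      rw [ip_self' (hx i)] at h
      have h2 : (z (x i) * (starRingEnd ℂ) (z (x i))).re = Complex.normSq (z (x i)) := by
        rw [Complex.mul_conj, Complex.ofReal_re]
      rw [h2] at h
      linarith [sq (ip (x i) u)])
    (fun i j => hz (x i) (x j))
  refine no_config (fun i => ip (x i) u) (fun i j => ip (x i) (x j)) KK gg (1/1000000) (by norm_num)
    (fun i => ?_) (fun i j hij => ?_) hform
  · have h1 := KK_diag (ip (x i) u)
    have h2 := HU_ge (neg_one_le_ip (hx i) hu) (hcon i).le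
    show KK (ip (x i) u) (ip (x i) u) (ip (x i) (x i)) ≤ _
    rw [ip_self' (hx i)]
    linarith
  · have h1 := KK_pair (ip (x i) u) (ip (x j) u) (ip (x i) (x j))
    have h2 := GG_nonneg (s := ip (x i) u + ip (x j) u) (p := ip (x i) u * ip (x j) u)
      (by nlinarith [sq_nonneg (ip (x i) u - ip (x j) u)]) (hsep i j hij)
      (by nlinarith [mul_pos (sub_pos.2 (hcon i)) (sub_pos.2 (hcon j))])
    linarith

end

end MPdef58eHole
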