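import Mathlib
import Pool.Agent.Work.MP_def58e_hole.Kern
import Pool.Agent.Work.MP_def58e_hole.Ineq7

/-! The kernel of the certificate and the bound on holes of eleven point configurations.
Generated by a program. -/

namespace MPdef58eHole7

open MPdef58e MPdef58eHole

noncomputable section

set_option maxRecDepth 100000

/-- polynomial of the certificate -/
def f0 (u : ℝ) : ℝ :=
  (4663207473/125000000000) + (285015573/200000000000)*u + (-137471189047/1000000000000)*u^2
  + (130614945663/1000000000000)*u^3 + (-3422025457/100000000000)*u^4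
  + (-48625928593/500000000000)*u^5 + (11974851129/100000000000)*u^6
  + (31769080917/1000000000000)*u^7

/-- polynomial of the certificate -/
def f1 (u : ℝ) : ℝ :=
  (86215426007/1000000000000)*u + (-22802284661/500000000000)*u^2
  + (-209167892119/1000000000000)*u^3 + (3788431123/200000000000)*u^4
  + (20210153697/200000000000)*u^5 + (243266937/200000000000)*u^6
  + (-71893988287/1000000000000)*u^7

/-- polynomial of the certificate -/
def f2 (u : ℝ) : ℝ :=
  (7203643743/500000000000)*u^2 + (3273234011/125000000000)*u^3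
  + (-10145137293/500000000000)*u^4 + (-6008043513/1000000000000)*u^5
  + (670456029/100000000000)*u^6 + (-13197948091/1000000000000)*u^7

/-- polynomial of the certificate -/
def f3 (u : ℝ) : ℝ :=
  (8432498837/500000000000)*u^3 + (1789996467/100000000000)*u^4
  + (-10567847689/1000000000000)*u^5 + (-7241647467/1000000000000)*u^6
  + (1557397759/500000000000)*u^7

/-- polynomial of the certificate -/
def f4 (u : ℝ) : ℝ :=
  (14635377561/1000000000000)*u^4 + (13632594993/500000000000)*u^5 + (-51056111/7812500000)*u^6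
  + (-17886490111/1000000000000)*u^7

/-- polynomial of the certificate -/
def f5 (u : ℝ) : ℝ :=
  (347354327/25000000000)*u^5 + (4762148621/200000000000)*u^6 + (4699482951/500000000000)*u^7

/-- polynomial of the certificate -/
def f6 (u : ℝ) : ℝ :=
  (504903101/40000000000)*u^6 + (52792523/4000000000)*u^7

/-- polynomial of the certificate -/
def f7 (u : ℝ) : ℝ :=
  (170408171/200000000000)*u^7

/-- polynomial of the certificate -/
def f8 (u : ℝ) : ℝ :=
  (9276991461/100000000000) + (-3508844751/1000000000000)*u + (-43582709553/125000000000)*u^2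
  + (-9967299671/500000000000)*u^3 + (457665437033/1000000000000)*u^4
  + (69203067021/1000000000000)*u^5 + (-164298538499/1000000000000)*u^6

/-- polynomial of the certificate -/
def f9 (u : ℝ) : ℝ :=
  (45170433763/500000000000)*u + (-15972502767/1000000000000)*u^2
  + (21950936217/1000000000000)*u^3 + (150140453321/1000000000000)*u^4
  + (9304273619/125000000000)*u^5 + (20253036853/500000000000)*u^6

/-- polynomial of the certificate -/
def f10 (u : ℝ) : ℝ :=
  (71937992629/1000000000000)*u^2 + (-11009347443/62500000000)*u^3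
  + (114606731711/1000000000000)*u^4 + (-5624826471/250000000000)*u^5
  + (-3893650839/200000000000)*u^6

/-- polynomial of the certificate -/
def f11 (u : ℝ) : ℝ :=
  (98880458117/1000000000000)*u^3 + (-19770381069/1000000000000)*u^4
  + (-387650521/50000000000)*u^5 + (20143507479/250000000000)*u^6

/-- polynomial of the certificate -/
def f12 (u : ℝ) : ℝ :=
  (50833766387/1000000000000)*u^4 + (3547723/244140625)*u^5 + (-1884342219/1000000000000)*u^6

/-- polynomial of the certificate -/
def f13 (u : ℝ) : ℝ :=
  (7562462203/250000000000)*u^5 + (4908627669/500000000000)*u^6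

/-- polynomial of the certificate -/
def f14 (u : ℝ) : ℝ :=
  (1994636083/40000000000)*u^6

/-- polynomial of the certificate -/
def f15 (u : ℝ) : ℝ :=
  (16623183861/200000000000) + (-1481475367/500000000000)*u + (-10245746067/40000000000)*u^2
  + (61643749/200000000000)*u^3 + (309327331209/1000000000000)*u^4
  + (115458846761/1000000000000)*u^5

/-- polynomial of the certificate -/
def f16 (u : ℝ) : ℝ :=
  (60072735859/1000000000000)*u + (-7704158481/200000000000)*u^2 + (1082289229/10000000000)*u^3
  + (-2946601623/1000000000000)*u^4 + (30084488303/1000000000000)*u^5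

/-- polynomial of the certificate -/
def f17 (u : ℝ) : ℝ :=
  (18357308847/250000000000)*u^2 + (-16189055481/1000000000000)*u^3
  + (182958098619/1000000000000)*u^4 + (-23582603489/250000000000)*u^5

/-- polynomial of the certificate -/
def f18 (u : ℝ) : ℝ :=
  (48781783831/1000000000000)*u^3 + (-2438519849/500000000000)*u^4
  + (-2126420393/200000000000)*u^5

/-- polynomial of the certificate -/
def f19 (u : ℝ) : ℝ :=
  (64681404779/1000000000000)*u^4 + (1295494021/1000000000000)*u^5

/-- polynomial of the certificate -/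
def f20 (u : ℝ) : ℝ :=
  (5619086463/250000000000)*u^5

/-- polynomial of the certificate -/
def f21 (u : ℝ) : ℝ :=
  (332799199/5000000000) + (-1761852671/200000000000)*u + (-141613726887/1000000000000)*u^2
  + (28324873441/500000000000)*u^3 + (143522322853/1000000000000)*u^4

/-- polynomial of the certificate -/
def f22 (u : ℝ) : ℝ :=
  (3112557961/100000000000)*u + (-17709094263/250000000000)*u^2
  + (93239531329/1000000000000)*u^3 + (-17836756381/500000000000)*u^4

/-- polynomial of the certificate -/
def f23 (u : ℝ) : ℝ :=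
  (8920356891/200000000000)*u^2 + (2332657169/500000000000)*u^3
  + (-202906574081/1000000000000)*u^4

/-- polynomial of the certificate -/
def f24 (u : ℝ) : ℝ :=
  (55882145647/1000000000000)*u^3 + (791637049/62500000000)*u^4

/-- polynomial of the certificate -/
def f25 (u : ℝ) : ℝ :=
  (25314841/400000000)*u^4

/-- polynomial of the certificate -/
def f26 (u : ℝ) : ℝ :=
  (22752156077/500000000000) + (-14826016271/1000000000000)*u + (-21250910289/500000000000)*u^2
  + (11762140181/250000000000)*u^3

/-- polynomial of the certificate -/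
def f27 (u : ℝ) : ℝ :=
  (1623040509/200000000000)*u + (-1894862243/250000000000)*u^2 + (-2661677023/100000000000)*u^3

/-- polynomial of the certificate -/
def f28 (u : ℝ) : ℝ :=
  (10299323917/1000000000000)*u^2 + (2924380633/250000000000)*u^3

/-- polynomial of the certificate -/
def f29 (u : ℝ) : ℝ :=
  (2959646107/500000000000)*u^3

/-- polynomial of the certificate -/
def f30 (u : ℝ) : ℝ :=
  (12456324691/500000000000) + (-2136878907/200000000000)*u + (-4666997049/500000000000)*u^2

/-- polynomial of the certificate -/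
def f31 (u : ℝ) : ℝ :=
  (5812250977/1000000000000)*u + (18932582383/500000000000)*u^2

/-- polynomial of the certificate -/
def f32 (u : ℝ) : ℝ :=
  (1291166733/500000000000)*u^2

/-- polynomial of the certificate -/
def f33 (u : ℝ) : ℝ :=
  (9001398283/1000000000000) + (-135288899/20000000000)*u

/-- polynomial of the certificate -/
def f34 (u : ℝ) : ℝ :=
  (526792573/1000000000000)*u

/-- polynomial of the certificate -/
def f35 (_u : ℝ) : ℝ :=
  (118647263/40000000000)

/-- correction function of the certificate -/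
def gg (u : ℝ) : ℝ :=
  (-24625569291/1000000000000) + (-363942123/1000000000000)*u + (163783528361/1000000000000)*u^2
  + (47294900173/1000000000000)*u^3 + (-47209790621/100000000000)*u^4
  + (-111181501663/1000000000000)*u^5 + (379513882383/1000000000000)*u^6
  + (12213448005530520006389243687/100000000000000000000000000000)*u^7

/-- the kernel -/
def KK (u v t : ℝ) : ℝ :=
  Q 0 u v t * (f0 u * f0 v)
  + Q 0 u v t * (f1 u * f1 v)
  + Q 0 u v t * (f2 u * f2 v)
  + Q 0 u v t * (f3 u * f3 v)
  + Q 0 u v t * (f4 u * f4 v)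
  + Q 0 u v t * (f5 u * f5 v)
  + Q 0 u v t * (f6 u * f6 v)
  + Q 0 u v t * (f7 u * f7 v)
  + Q 1 u v t * (f8 u * f8 v)
  + Q 1 u v t * (f9 u * f9 v)
  + Q 1 u v t * (f10 u * f10 v)
  + Q 1 u v t * (f11 u * f11 v)
  + Q 1 u v t * (f12 u * f12 v)
  + Q 1 u v t * (f13 u * f13 v)
  + Q 1 u v t * (f14 u * f14 v)
  + Q 2 u v t * (f15 u * f15 v)
  + Q 2 u v t * (f16 u * f16 v)
  + Q 2 u v t * (f17 u * f17 v)
  + Q 2 u v t * (f18 u * f18 v)
  + Q 2 u v t * (f19 u * f19 v)
  + Q 2 u v t * (f20 u * f20 v)
  + Q 3 u v t * (f21 u * f21 v)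
  + Q 3 u v t * (f22 u * f22 v)
  + Q 3 u v t * (f23 u * f23 v)
  + Q 3 u v t * (f24 u * f24 v)
  + Q 3 u v t * (f25 u * f25 v)
  + Q 4 u v t * (f26 u * f26 v)
  + Q 4 u v t * (f27 u * f27 v)
  + Q 4 u v t * (f28 u * f28 v)
  + Q 4 u v t * (f29 u * f29 v)
  + Q 5 u v t * (f30 u * f30 v)
  + Q 5 u v t * (f31 u * f31 v)
  + Q 5 u v t * (f32 u * f32 v)
  + Q 6 u v t * (f33 u * f33 v)
  + Q 6 u v t * (f34 u * f34 v)
  + Q 7 u v t * (f35 u * f35 v)

theorem KK_pair (u v t : ℝ) : (gg u + gg v)/20 - KK u v t = GG (u + v) (u * v) t := by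
  unfold KK GG gg
  simp only [Q, f0, f1, f2, f3, f4, f5, f6, f7, f8, f9, f10, f11, f12, f13, f14, f15, f16, f17, f18, f19, f20, f21, f22, f23, f24, f25, f26, f27, f28, f29, f30, f31, f32, f33, f34, f35]
  ring

theorem KK_diag (u : ℝ) : - KK u u 1 - gg u = HU u := by
  unfold KK HU gg
  simp only [Q, f0, f1, f2, f3, f4, f5, f6, f7, f8, f9, f10, f11, f12, f13, f14, f15, f16, f17, f18, f19, f20, f21, f22, f23, f24, f25, f26, f27, f28, f29, f30, f31, f32, f33, f34, f35]
  ring

theorem KK_form {ι : Type*} [Fintype ι] (x : ι → ℝ) (z : ι → ℂ) (t : ι → ι → ℝ)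
    (hz : ∀ i, Complex.normSq (z i) = 1 - x i ^ 2)
    (ht : ∀ i j, t i j = x i * x j + (z i * (starRingEnd ℂ) (z j)).re) :
    0 ≤ ∑ i, ∑ j, KK (x i) (x j) (t i j) := by
  unfold KK
  simp only [Finset.sum_add_distrib]
  have h0 := form_nonneg 0 f0 x z t hz ht
  have h1 := form_nonneg 0 f1 x z t hz ht
  have h2 := form_nonneg 0 f2 x z t hz ht
  have h3 := form_nonneg 0 f3 x z t hz ht
  have h4 := form_nonneg 0 f4 x z t hz ht
  have h5 := form_nonneg 0 f5 x z t hz ht
  have h6 := form_nonneg 0 f6 x z t hz ht
  have h7 := form_nonneg 0 f7 x z t hz ht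
  have h8 := form_nonneg 1 f8 x z t hz ht
  have h9 := form_nonneg 1 f9 x z t hz ht
  have h10 := form_nonneg 1 f10 x z t hz ht
  have h11 := form_nonneg 1 f11 x z t hz ht
  have h12 := form_nonneg 1 f12 x z t hz ht
  have h13 := form_nonneg 1 f13 x z t hz ht
  have h14 := form_nonneg 1 f14 x z t hz ht
  have h15 := form_nonneg 2 f15 x z t hz ht
  have h16 := form_nonneg 2 f16 x z t hz ht
  have h17 := form_nonneg 2 f17 x z t hz ht
  have h18 := form_nonneg 2 f18 x z t hz ht
  have h19 := form_nonneg 2 f19 x z t hz ht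
  have h20 := form_nonneg 2 f20 x z t hz ht
  have h21 := form_nonneg 3 f21 x z t hz ht
  have h22 := form_nonneg 3 f22 x z t hz ht
  have h23 := form_nonneg 3 f23 x z t hz ht
  have h24 := form_nonneg 3 f24 x z t hz ht
  have h25 := form_nonneg 3 f25 x z t hz ht
  have h26 := form_nonneg 4 f26 x z t hz ht
  have h27 := form_nonneg 4 f27 x z t hz ht
  have h28 := form_nonneg 4 f28 x z t hz ht
  have h29 := form_nonneg 4 f29 x z t hz ht
  have h30 := form_nonneg 5 f30 x z t hz ht
  have h31 := form_nonneg 5 f31 x z t hz ht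
  have h32 := form_nonneg 5 f32 x z t hz ht
  have h33 := form_nonneg 6 f33 x z t hz ht
  have h34 := form_nonneg 6 f34 x z t hz ht
  have h35 := form_nonneg 7 f35 x z t hz ht
  linarith

theorem no_hole (x : Fin 11 → Fin 3 → ℝ) (u : Fin 3 → ℝ) (hx : ∀ i, IsUnit3 (x i))
    (hu : IsUnit3 u) (hsep : ∀ i j, i ≠ j → ip (x i) (x j) ≤ 1 / 2) :
    ∃ i, 3/10 ≤ ip (x i) u := by
  by_contra hcon
  push Not at hcon
  obtain ⟨z, hz⟩ := exists_frame u hu
  have hform := KK_form (fun i => ip (x i) u) (fun i => z (x i)) (fun i j => ip (x i) (x j))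
    (fun i => by
      have h := hz (x i) (x i)
      rw [ip_self' (hx i)] at h
      have h2 : (z (x i) * (starRingEnd ℂ) (z (x i))).re = Complex.normSq (z (x i)) := by
        rw [Complex.mul_conj, Complex.ofReal_re]
      rw [h2] at h
      linarith [sq (ip (x i) u)])
    (fun i j => hz (x i) (x j))
  refine no_config (fun i => ip (x i) u) (fun i j => ip (x i) (x j)) KK gg (1/1000000) (by norm_num)
    (fun i => ?_) (fun i j hij => ?_) hform
  · have h1 := KK_diag (ip (x i) u)
    have h2 := HU_ge (neg_one_le_ip (hx i) hu) (hcon i).le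
    show KK (ip (x i) u) (ip (x i) u) (ip (x i) (x i)) ≤ _
    rw [ip_self' (hx i)]
    linarith
  · have h1 := KK_pair (ip (x i) u) (ip (x j) u) (ip (x i) (x j))
    have h2 := GG_nonneg (s := ip (x i) u + ip (x j) u) (p := ip (x i) u * ip (x j) u)
      (by nlinarith [sq_nonneg (ip (x i) u - ip (x j) u)]) (hsep i j hij)
      (by nlinarith [mul_pos (sub_pos.2 (hcon i)) (sub_pos.2 (hcon j))])
    linarith

end

end MPdef58eHole7
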